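import Pool.Agent.CB.Stm3

/-!
# Project CB, part 2: the forms of two facets agree on the intersection (`R_AGR`)
-/

set_option autoImplicit false

namespace Pool.Agent.CB

open Finset Module

theorem t_AGR (h : R_SPF) : R_AGR := by
  intro ι W _ _ _ _ _ k p a b u A hW hSg hF hk hk2 i j ε δ hij h1 h2 x y hx1 hy1 hx2 hy2
  have key : ∀ I J : Finset ι, Disjoint I J → I.card + k < Fintype.card ι → J.card < k →
      (∀ l ∈ I, a l x = 0) → (∀ l ∈ J, b l x = 0) →
      (∀ S : Finset ι, Disjoint I S → J ⊆ S → (i ∈ S ↔ ε = true) ∧ (j ∈ S ↔ δ = true)) →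
      A i ε x y = A j δ x y := by
    intro I J hIJ hI hJ hxa hxb hS
    have hx := h ι W k p a b hW hSg I J hIJ hI hJ x hxa hxb
    refine Submodule.span_induction (p := fun z _ => A i ε z y = A j δ z y) ?_ ?_ ?_ ?_ hx
    · rintro z ⟨S, hSc, hSI, hSJ, rfl⟩
      obtain ⟨e1, e2⟩ := hS S hSI hSJ
      rw [← (hF i ε).2 S hSc e1 y hy1, ← (hF j δ).2 S hSc e2 y hy2]
    · simp
    · intro z w _ _ ih1 ih2
      simp only [map_add, LinearMap.add_apply, ih1, ih2]
    · intro c z _ ih
      simp only [map_smul, LinearMap.smul_apply, ih]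
  unfold ph at hx1 hx2
  cases ε <;> cases δ <;> simp only [Bool.false_eq_true, if_true, if_false] at hx1 hx2
  · refine key {i, j} ∅ (disjoint_empty_right _) ?_ (by simp; omega) ?_ (by simp) ?_
    · rw [card_pair hij]
      have := h1 rfl rfl
      omega
    · intro l hl
      rcases mem_insert.1 hl with rfl | hl
      · exact hx1
      · rw [mem_singleton.1 hl]; exact hx2
    · intro S hd _
      rw [disjoint_left] at hd
      have e1 : i ∉ S := hd (by simp)
      have e2 : j ∉ S := hd (by simp)
      simp [e1, e2]
  · refine key {i} {j} (by simpa using hij) (by simp; omega) (by simp; omega) ?_ ?_ ?_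
    · intro l hl
      rw [mem_singleton.1 hl]; exact hx1
    · intro l hl
      rw [mem_singleton.1 hl]; exact hx2
    · intro S hd hJ
      rw [disjoint_left] at hd
      have e1 : i ∉ S := hd (by simp)
      have e2 : j ∈ S := hJ (by simp)
      simp [e1, e2]
  · refine key {j} {i} (by simpa using hij.symm) (by simp; omega) (by simp; omega) ?_ ?_ ?_
    · intro l hl
      rw [mem_singleton.1 hl]; exact hx2
    · intro l hl
      rw [mem_singleton.1 hl]; exact hx1
    · intro S hd hJ
      rw [disjoint_left] at hd
      have e1 : j ∉ S := hd (by simp)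
      have e2 : i ∈ S := hJ (by simp)
      simp [e1, e2]
  · refine key ∅ {i, j} (disjoint_empty_left _) (by simp; omega) ?_ (by simp) ?_ ?_
    · rw [card_pair hij]
      have := h2 rfl rfl
      omega
    · intro l hl
      rcases mem_insert.1 hl with rfl | hl
      · exact hx1
      · rw [mem_singleton.1 hl]; exact hx2
    · intro S _ hJ
      have e1 : i ∈ S := hJ (by simp)
      have e2 : j ∈ S := hJ (by simp)
      simp [e1, e2]

end Pool.Agent.CB

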