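import Pool.Agent.CB.Stm3

set_option autoImplicit false

namespace Pool.Agent.CB

namespace ALT

open Finset Module

variable {W : Type} [AddCommGroup W] [Module ℚ W]

/-- the alternating forms -/
noncomputable def X (W : Type) [AddCommGroup W] [Module ℚ W] : Submodule ℚ (W →ₗ[ℚ] W →ₗ[ℚ] ℚ) where
  carrier := {A | ∀ x, A x x = 0}
  add_mem' := fun {A B} hA hB x => by
    rw [LinearMap.add_apply, LinearMap.add_apply, hA x, hB x, add_zero]
  zero_mem' := fun x => rfl
  smul_mem' := fun c A hA x => by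
    rw [LinearMap.smul_apply, LinearMap.smul_apply, hA x, smul_zero]

theorem anti {A : W →ₗ[ℚ] W →ₗ[ℚ] ℚ} (hA : A ∈ X W) (x y : W) : A x y = - A y x := by
  have h1 : A (x + y) (x + y) = 0 := hA (x + y)
  have hx : A x x = 0 := hA x
  have hy : A y y = 0 := hA y
  rw [map_add, map_add, LinearMap.add_apply, LinearMap.add_apply, hx, hy] at h1
  linarith

/-- coordinates -/
noncomputable def F {m : ℕ} (v : Basis (Fin m) ℚ W) : X W →ₗ[ℚ] ((Σ j : Fin m, Fin j.1) → ℚ) where
  toFun A p := A.1 (v ⟨p.2.1, p.2.2.trans p.1.2⟩) (v p.1)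
  map_add' A B := by
    funext p
    rfl
  map_smul' c A := by
    funext p
    rfl

theorem F_inj {m : ℕ} (v : Basis (Fin m) ℚ W) : Function.Injective (F v) := by
  rw [injective_iff_map_eq_zero]
  intro A hA
  have h1 : ∀ i j : Fin m, i < j → A.1 (v i) (v j) = 0 := fun i j hij => congrFun hA ⟨j, ⟨i.1, hij⟩⟩
  refine Subtype.ext (v.ext fun i => v.ext fun j => ?_)
  show A.1 (v i) (v j) = 0
  rcases lt_trichotomy i j with h | h | h
  · exact h1 i j h
  · subst h
    exact A.2 (v i)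
  · rw [anti A.2, h1 j i h, neg_zero]

/-- the antisymmetric matrix -/
noncomputable def M {m : ℕ} (g : (Σ j : Fin m, Fin j.1) → ℚ) (i j : Fin m) : ℚ :=
  if h : i < j then g ⟨j, ⟨i.1, h⟩⟩ else if h : j < i then - g ⟨i, ⟨j.1, h⟩⟩ else 0

theorem M_anti {m : ℕ} (g : (Σ j : Fin m, Fin j.1) → ℚ) (i j : Fin m) : M g i j + M g j i = 0 := by
  unfold M
  rcases lt_trichotomy i j with h | h | h
  · rw [dif_pos h, dif_neg h.not_gt, dif_pos h]
    ring
  · subst h
    rw [dif_neg (lt_irrefl i), dif_neg (lt_irrefl i), add_zero]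
  · rw [dif_neg h.not_gt, dif_pos h, dif_pos h]
    ring

theorem F_surj {m : ℕ} (v : Basis (Fin m) ℚ W) : Function.Surjective (F v) := by
  intro g
  set A : W →ₗ[ℚ] W →ₗ[ℚ] ℚ := v.constr ℚ (fun i => v.constr ℚ (M g i)) with hA
  have h1 : ∀ i j, A (v i) (v j) = M g i j := by
    intro i j
    rw [hA, Basis.constr_basis, Basis.constr_basis]
  have h2 : A + A.flip = 0 := by
    refine v.ext fun i => v.ext fun j => ?_
    show A (v i) (v j) + A.flip (v i) (v j) = 0
    rw [LinearMap.flip_apply, h1, h1]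
    exact M_anti g i j
  have h3 : ∀ x, A x x = 0 := by
    intro x
    have h4 : A x x + A.flip x x = 0 := by
      have h5 := LinearMap.congr_fun (LinearMap.congr_fun h2 x) x
      exact h5
    rw [LinearMap.flip_apply] at h4
    linarith
  refine ⟨⟨A, h3⟩, ?_⟩
  funext ⟨j, i⟩
  have h4 : (⟨i.1, i.2.trans j.2⟩ : Fin m) < j := i.2
  show A (v ⟨i.1, i.2.trans j.2⟩) (v j) = g ⟨j, i⟩
  rw [h1]
  unfold M
  rw [dif_pos h4]

end ALT

theorem t_ALT : R_ALT := by
  intro W _ _ _
  refine ⟨ALT.X W, fun A => Iff.rfl, ?_⟩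
  have v := Module.finBasis ℚ W
  rw [LinearEquiv.finrank_eq (LinearEquiv.ofBijective (ALT.F v) ⟨ALT.F_inj v, ALT.F_surj v⟩),
    Module.finrank_fintype_fun_eq_card, Fintype.card_sigma]
  simp only [Fintype.card_fin]
  rw [Fin.sum_univ_eq_sum_range (fun i => i) (Module.finrank ℚ W), Finset.sum_range_id, Nat.choose_two_right]

end Pool.Agent.CB
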