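import Pool.Agent.CB.Stm3

/-!
# Project CB, part 2, piece R-ATS: the form of a vertex
-/

set_option autoImplicit false

namespace Pool.Agent.CB

open Finset Module

theorem t_ATS : R_ATS := by
  intro hIND hGLU hVNT hAGR ι W _ _ _ _ _ k p a b u A hfin hSg hF hk2 hkm hm5 S hS
  classical
  set φ : ι → W →ₗ[ℚ] ℚ := fun i => ph a b i (decide (i ∈ S)) with hφ
  have hφp : ∀ i, φ i (p S) = 0 := by
    intro i
    by_cases hi : i ∈ S
    · have : φ i = b i := by simp [hφ, ph, hi]
      rw [this]; exact ((hSg S hS i).1 hi).2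
    · have : φ i = a i := by simp [hφ, ph, hi]
      rw [this]; exact ((hSg S hS i).2 hi).1
  -- three indices of the same type
  obtain ⟨q, hq, hqS⟩ : ∃ q : Fin 3 → ι, Function.Injective q ∧
      (((∀ j, q j ∉ S) ∧ k + 3 ≤ Fintype.card ι) ∨ ((∀ j, q j ∈ S) ∧ 3 ≤ k)) := by
    by_cases hk3 : k + 3 ≤ Fintype.card ι
    · have h1 : 3 ≤ (Sᶜ).card := by rw [Finset.card_compl]; omega
      obtain ⟨T, hT, hT3⟩ := Finset.exists_subset_card_eq h1
      let g := (T.equivFinOfCardEq hT3).symm
      refine ⟨fun j => (g j : ι), fun i j hij => g.injective (Subtype.ext hij), Or.inl ⟨fun j => ?_, hk3⟩⟩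
      exact Finset.mem_compl.1 (hT (g j).2)
    · have h1 : 3 ≤ S.card := by omega
      obtain ⟨T, hT, hT3⟩ := Finset.exists_subset_card_eq h1
      let g := (T.equivFinOfCardEq hT3).symm
      refine ⟨fun j => (g j : ι), fun i j hij => g.injective (Subtype.ext hij), Or.inr ⟨fun j => ?_, by omega⟩⟩
      exact hT (g j).2
  have hagr : ∀ (j0 : Fin 3) (j : ι), q j0 ≠ j → ∀ x y, φ (q j0) x = 0 → φ (q j0) y = 0 →
      φ j x = 0 → φ j y = 0 →
      A (q j0) (decide (q j0 ∈ S)) x y = A j (decide (j ∈ S)) x y := by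
    intro j0 j hne x y h1 h2 h3 h4
    refine hAGR ι W k p a b u A hfin hSg hF hk2 hkm (q j0) j _ _ hne ?_ ?_ x y h1 h2 h3 h4
    · intro e1 _
      rcases hqS with ⟨_, h⟩ | ⟨h, _⟩
      · exact h
      · exact absurd (h j0) (of_decide_eq_false e1)
    · intro e1 _
      rcases hqS with ⟨h, _⟩ | ⟨_, h⟩
      · exact absurd (of_decide_eq_true e1) (h j0)
      · exact h
  -- dual vectors of the three
  have hdual : ∀ i : ι, ∃ e : Fin 3 → W, (∀ j l, φ (q j) (e l) = if j = l then 1 else 0) ∧
      ((∀ j, q j ≠ i) → ∀ l, φ i (e l) = 0) := by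
    intro i
    obtain ⟨e, he⟩ := hIND ι W k p a b hSg (by omega) (by omega) S (insert i (univ.image q)) hS (by
      intro h'
      have h1 : (insert i (univ.image q)).card ≤ 4 := by
        refine (Finset.card_insert_le _ _).trans ?_
        have : (univ.image q).card ≤ 3 := Finset.card_image_le.trans (by simp)
        omega
      rw [h', Finset.card_univ] at h1
      omega)
    have hmem : ∀ j, q j ∈ insert i (univ.image q) := fun j =>
      Finset.mem_insert_of_mem (Finset.mem_image_of_mem q (Finset.mem_univ j))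
    refine ⟨fun l => e (q l), fun j l => ?_, fun hj l => ?_⟩
    · have := he (q j) (hmem j) (q l) (hmem l)
      show φ (q j) (e (q l)) = _
      rw [show φ (q j) (e (q l)) = if q j = q l then (1 : ℚ) else 0 from this]
      simp only [hq.eq_iff]
    · have := he i (Finset.mem_insert_self _ _) (q l) (hmem l)
      show φ i (e (q l)) = 0
      rw [show φ i (e (q l)) = if i = q l then (1 : ℚ) else 0 from this, if_neg (hj l).symm]
  obtain ⟨e, he, -⟩ := hdual (q 0)
  obtain ⟨B, hB0, hB⟩ := hGLU W (fun j => φ (q j)) e (fun j => A (q j) (decide (q j ∈ S))) he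
    (fun j x => (hF (q j) (decide (q j ∈ S))).1 x)
    (fun i j x y h1 h2 h3 h4 => by
      by_cases hij : i = j
      · rw [hij]
      · exact hagr i (q j) (fun h' => hij (hq h')) x y h1 h2 h3 h4)
  have hall : ∀ i x y, φ i x = 0 → φ i y = 0 → B x y = A i (decide (i ∈ S)) x y := by
    intro i
    by_cases hi : ∃ j, q j = i
    · obtain ⟨j, rfl⟩ := hi
      intro x y h1 h2
      exact hB j x y h1 h2
    · push Not at hi
      obtain ⟨e', he', he0⟩ := hdual i
      intro x y h1 h2
      have h3 := hVNT W (LinearMap.ker (φ i)) (fun j => φ (q j)) e' (B - A i (decide (i ∈ S))) he'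
        (fun l => LinearMap.mem_ker.2 (he0 hi l)) (by
          intro j x hx y hy h4 h5
          rw [LinearMap.sub_apply, LinearMap.sub_apply, hB j x y h4 h5,
            hagr j i (hi j) x y h4 h5 (LinearMap.mem_ker.1 hx) (LinearMap.mem_ker.1 hy), sub_self])
        x (LinearMap.mem_ker.2 h1) y (LinearMap.mem_ker.2 h2)
      rw [LinearMap.sub_apply, LinearMap.sub_apply, sub_eq_zero] at h3
      exact h3
  refine ⟨B, hB0, ?_, hall⟩
  have hker : ∀ i y, φ i y = 0 → u S y = B (p S) y := by
    intro i y hy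
    rw [hall i (p S) y (hφp i) hy]
    exact (hF i (decide (i ∈ S))).2 S hS (by simp) y hy
  apply LinearMap.ext
  intro y
  have h1 : φ (q 0) (y - φ (q 0) y • e 0) = 0 := by
    rw [map_sub, map_smul, he 0 0, if_pos rfl, smul_eq_mul, mul_one, sub_self]
  have h2 : φ (q 1) (φ (q 0) y • e 0) = 0 := by
    rw [map_smul, he 1 0, if_neg (by decide), smul_zero]
  have h3 := hker (q 0) _ h1
  have h4 := hker (q 1) _ h2
  rw [map_sub, map_sub, h4] at h3
  exact sub_left_injective h3

end Pool.Agent.CB

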