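import Pool.Agent.CB.Stm3

/-!
# Project CB: the piece R-CON (connectedness of the neighbour graph of the `k`-sets)
-/

set_option autoImplicit false

namespace Pool.Agent.CB

open Finset

theorem CON.aux {ι X : Type} [DecidableEq ι] (k : ℕ) (v : Finset ι → X)
    (h : ∀ S T : Finset ι, S.card = k → Nb S T → v S = v T) :
    ∀ (n : ℕ) (S T : Finset ι), S.card = k → T.card = k → (S \ T).card = n → v S = v T := by
  intro n
  induction n with
  | zero =>
    intro S T hS hT hn
    have h1 : S ⊆ T := sdiff_eq_empty_iff_subset.1 (card_eq_zero.1 hn)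
    rw [eq_of_subset_of_card_le h1 (by rw [hS, hT])]
  | succ n ih =>
    intro S T hS hT hn
    have h1 : (S \ T).Nonempty := card_pos.1 (by omega)
    have h2 : (T \ S).Nonempty := by
      have := card_sdiff_add_card_inter S T
      have h3 := card_sdiff_add_card_inter T S
      rw [inter_comm] at h3
      exact card_pos.1 (by omega)
    obtain ⟨x, hx⟩ := h1
    obtain ⟨y, hy⟩ := h2
    rw [mem_sdiff] at hx hy
    have hye : y ∉ S.erase x := fun h3 => hy.2 (mem_of_mem_erase h3)
    have hcard : (insert y (S.erase x)).card = k := by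
      rw [card_insert_of_notMem hye, card_erase_of_mem hx.1, hS]
      have : 0 < S.card := card_pos.2 ⟨x, hx.1⟩
      omega
    rw [h S (insert y (S.erase x)) hS ⟨x, hx.1, y, hy.2, rfl⟩]
    refine ih _ T hcard hT ?_
    have h4 : insert y (S.erase x) \ T = (S \ T).erase x := by
      ext z
      simp only [mem_sdiff, mem_insert, mem_erase]
      constructor
      · rintro ⟨rfl | h5, h6⟩
        · exact absurd hy.1 h6
        · exact ⟨h5.1, h5.2, h6⟩
      · rintro ⟨h5, h6, h7⟩
        exact ⟨Or.inr ⟨h5, h6⟩, h7⟩
    rw [h4, card_erase_of_mem (mem_sdiff.2 hx), hn]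
    rfl

theorem t_CON : R_CON := by
  intro ι X _ _ k v h S T hS hT
  exact CON.aux k v h _ S T hS hT rfl

end Pool.Agent.CB
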