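import Pool.Agent.CB.Stm3

/-! Project CB, piece R-FCA: the forms of the facets of type `false`. -/

set_option autoImplicit false

namespace Pool.Agent.CB

open Finset Module

namespace FCA

/-- the projection onto the kernel of `f` along `e`, where `f e = 1` -/
def proj {W : Type} [AddCommGroup W] [Module ℚ W] (f : W →ₗ[ℚ] ℚ) (e : W) (he : f e = 1) :
    W →ₗ[ℚ] LinearMap.ker f :=
  (LinearMap.id - f.smulRight e).codRestrict (LinearMap.ker f) (by
    intro x
    rw [LinearMap.mem_ker, LinearMap.sub_apply, LinearMap.id_apply, LinearMap.smulRight_apply, map_sub, map_smul, he,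
      smul_eq_mul, mul_one, sub_self])

theorem proj_of_ker {W : Type} [AddCommGroup W] [Module ℚ W] (f : W →ₗ[ℚ] ℚ) (e : W) (he : f e = 1) (x : W)
    (hx : f x = 0) : (proj f e he x : W) = x := by
  unfold proj
  rw [LinearMap.codRestrict_apply, LinearMap.sub_apply, LinearMap.id_apply, LinearMap.smulRight_apply, hx, zero_smul,
    sub_zero]

theorem finrank_ker {W : Type} [AddCommGroup W] [Module ℚ W] [FiniteDimensional ℚ W] {m : ℕ}
    (hW : finrank ℚ W = m + 1) (f : W →ₗ[ℚ] ℚ) (e : W) (he : f e = 1) : finrank ℚ (LinearMap.ker f) = m := by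
  have h1 := f.finrank_range_add_finrank_ker
  have h2 : LinearMap.range f = ⊤ := by
    rw [LinearMap.range_eq_top]
    intro c
    exact ⟨c • e, by rw [map_smul, he, smul_eq_mul, mul_one]⟩
  rw [h2, finrank_top, Module.finrank_self, hW] at h1
  omega

theorem nb_map {ι κ : Type} [DecidableEq ι] [DecidableEq κ] (g : κ ↪ ι) {S T : Finset κ} (h : Nb S T) :
    Nb (S.map g) (T.map g) := by
  obtain ⟨x, hx, y, hy, rfl⟩ := h
  refine ⟨g x, mem_map_of_mem g hx, g y, fun h => hy ((mem_map' g).1 h), ?_⟩
  rw [map_insert, map_erase]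

theorem nb_card {ι : Type} [DecidableEq ι] {S T : Finset ι} (h : Nb S T) : T.card = S.card := by
  obtain ⟨x, hx, y, hy, rfl⟩ := h
  rw [card_insert_of_notMem (fun h => hy (mem_of_mem_erase h)), card_erase_of_mem hx]
  have := card_pos.2 ⟨x, hx⟩
  omega

end FCA

open FCA in
theorem t_FCA : R_FCA := by
  intro m k hR hk ι W _ _ _ _ _ hι hW p a b u hs hu hkm i
  -- a set which contains `i`
  obtain ⟨S₀, hi0, hS0⟩ : ∃ S₀ : Finset ι, i ∈ S₀ ∧ S₀.card = k := by
    obtain ⟨t, h1, -, h3⟩ := exists_subsuperset_card_eq (s := {i}) (t := (univ : Finset ι)) (subset_univ _)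
      (n := k) (by rw [card_singleton]; exact hk) (by rw [card_univ, hι]; omega)
    exact ⟨t, h1 (mem_singleton_self i), h3⟩
  have h0 : 0 < a i (p S₀) := ((hs S₀ hS0 i).1 hi0).1
  have he : a i ((a i (p S₀))⁻¹ • p S₀) = 1 := by
    rw [map_smul, smul_eq_mul, inv_mul_cancel₀ h0.ne']
  set e := (a i (p S₀))⁻¹ • p S₀ with hedef
  let g : {j : ι // j ≠ i} ↪ ι := Function.Embedding.subtype _
  let π := proj (a i) e he
  have hmem : ∀ S' : Finset {j : ι // j ≠ i}, i ∉ S'.map g := by
    intro S' h
    obtain ⟨j, -, hj⟩ := mem_map.1 h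
    exact j.2 hj
  have hpi : ∀ S' : Finset {j : ι // j ≠ i}, S'.card = k → (π (p (S'.map g)) : W) = p (S'.map g) := by
    intro S' hS'
    apply proj_of_ker
    exact ((hs (S'.map g) (by rw [card_map]; exact hS') i).2 (hmem S')).1
  have hcard : Fintype.card {j : ι // j ≠ i} = m := by
    rw [Fintype.card_subtype_compl, Fintype.card_subtype_eq, hι]
    omega
  obtain ⟨A, hA1, hA2⟩ := hR {j : ι // j ≠ i} (LinearMap.ker (a i)) hcard (finrank_ker hW (a i) e he)
    (fun S' => π (p (S'.map g))) (fun j => a j.1 ∘ₗ (LinearMap.ker (a i)).subtype)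
    (fun j => b j.1 ∘ₗ (LinearMap.ker (a i)).subtype)
    (fun S' => u (S'.map g) ∘ₗ (LinearMap.ker (a i)).subtype) (by
      intro S' hS' j
      have h1 := hs (S'.map g) (by rw [card_map]; exact hS') j.1
      have h2 : j ∈ S' ↔ j.1 ∈ S'.map g := (mem_map' g (a := j)).symm
      simp only [LinearMap.comp_apply, Submodule.subtype_apply]
      rw [hpi S' hS', h2]
      exact h1) (by
      constructor
      · intro S' hS'
        simp only [LinearMap.comp_apply, Submodule.subtype_apply]
        rw [hpi S' hS']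
        exact hu.1 _ (by rw [card_map]; exact hS')
      · intro S' T' hS' hN
        simp only [LinearMap.comp_apply, Submodule.subtype_apply]
        rw [hpi S' hS', hpi T' (by rw [nb_card hN]; exact hS')]
        exact hu.2 _ _ (by rw [card_map]; exact hS') (nb_map g hN))
  refine ⟨A.compl₁₂ π π, fun x => hA1 (π x), fun S hS hiS y hy => ?_⟩
  have hmap : (S.subtype fun j => j ≠ i).map g = S := by
    rw [show g = Function.Embedding.subtype _ from rfl, subtype_map]
    exact filter_true_of_mem fun j hj => by rintro rfl; exact hiS hj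
  have h1 := hA2 (S.subtype fun j => j ≠ i) (by rw [← card_map g, hmap]; exact hS)
  have h2 := LinearMap.congr_fun h1 (π y)
  simp only [LinearMap.comp_apply, Submodule.subtype_apply] at h2
  rw [hmap, show (π y : W) = y from proj_of_ker _ _ _ _ hy] at h2
  rw [LinearMap.compl₁₂_apply]
  exact h2

end Pool.Agent.CB
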