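import Pool.Agent.CB.Stm3

set_option autoImplicit false

namespace Pool.Agent.CB

open Finset Module

namespace FCB

variable {ι : Type} [DecidableEq ι]

/-- the set `S' ∪ {i}` -/
def up (i : ι) (S : Finset {j : ι // j ≠ i}) : Finset ι := insert i (S.map (Function.Embedding.subtype _))

theorem mem_up {i : ι} {S : Finset {j : ι // j ≠ i}} (j : {j : ι // j ≠ i}) : j.1 ∈ up i S ↔ j ∈ S := by
  unfold up
  rw [Finset.mem_insert, Finset.mem_map]
  constructor
  · rintro (h | ⟨j', hj', h⟩)
    · exact absurd h j.2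
    · have : j' = j := Subtype.ext h
      rwa [← this]
  · intro h
    exact Or.inr ⟨j, h, rfl⟩

theorem self_mem_up {i : ι} {S : Finset {j : ι // j ≠ i}} : i ∈ up i S := Finset.mem_insert_self _ _

theorem card_up {i : ι} {S : Finset {j : ι // j ≠ i}} : (up i S).card = S.card + 1 := by
  unfold up
  rw [Finset.card_insert_of_notMem, Finset.card_map]
  rw [Finset.mem_map]
  rintro ⟨j, _, h⟩
  exact j.2 h

theorem up_ext {i : ι} {S : Finset {j : ι // j ≠ i}} {T : Finset ι} (hi : i ∈ T)
    (h : ∀ j : {j : ι // j ≠ i}, j ∈ S ↔ j.1 ∈ T) : up i S = T := by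
  ext j
  by_cases hj : j = i
  · subst hj
    exact ⟨fun _ => hi, fun _ => self_mem_up⟩
  · exact (mem_up ⟨j, hj⟩).trans (h ⟨j, hj⟩)

end FCB

open FCB in
theorem t_FCB : R_FCB := by
  intro m k hR hk ι W _ _ _ _ _ hι hW p a b u hSg hStr hkm i
  -- the hyperplane
  have hcard : (univ.erase i : Finset ι).card = m := by
    rw [Finset.card_erase_of_mem (Finset.mem_univ _), Finset.card_univ, hι]; rfl
  obtain ⟨T0, hT0, hT0c⟩ := Finset.exists_subset_card_eq (s := (univ.erase i : Finset ι)) (n := k + 1)
    (by rw [hcard]; exact hkm)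
  have hiT0 : i ∉ T0 := fun h => (Finset.mem_erase.1 (hT0 h)).1 rfl
  have hb0 : b i ≠ 0 := by
    intro h
    have := ((hSg T0 hT0c i).2 hiT0).2
    rw [h] at this
    exact lt_irrefl _ this
  have hker : finrank ℚ (LinearMap.ker (b i)) = m := by
    have h1 := LinearMap.finrank_range_add_finrank_ker (b i)
    have h2 : LinearMap.range (b i) = ⊤ := LinearMap.range_eq_top.2 (LinearMap.surjective hb0)
    rw [h2, finrank_top, finrank_self, hW] at h1
    omega
  have hι' : Fintype.card {j : ι // j ≠ i} = m := by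
    rw [Fintype.card_subtype_compl, Fintype.card_subtype_eq, hι]; rfl
  obtain ⟨π, hπ⟩ := LinearMap.exists_leftInverse_of_injective (LinearMap.ker (b i)).subtype
    (Submodule.ker_subtype _)
  have hπ' : ∀ y (hy : b i y = 0), π y = ⟨y, hy⟩ := fun y hy =>
    LinearMap.congr_fun hπ (⟨y, hy⟩ : LinearMap.ker (b i))
  have hp0 : ∀ S : Finset {j : ι // j ≠ i}, S.card = k → b i (p (up i S)) = 0 := fun S hS =>
    ((hSg (up i S) (by rw [card_up, hS]) i).1 self_mem_up).2
  obtain ⟨A, hA1, hA2⟩ := hR {j : ι // j ≠ i} (LinearMap.ker (b i)) hι' hker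
    (fun S => π (p (up i S))) (fun j => a j.1 ∘ₗ (LinearMap.ker (b i)).subtype)
    (fun j => b j.1 ∘ₗ (LinearMap.ker (b i)).subtype)
    (fun S => u (up i S) ∘ₗ (LinearMap.ker (b i)).subtype)
    (by
      intro S hS j
      have h0 := hSg (up i S) (by rw [card_up, hS]) j.1
      have e1 : ((π (p (up i S)) : LinearMap.ker (b i)) : W) = p (up i S) := by
        rw [hπ' _ (hp0 S hS)]
      refine ⟨fun hj => ?_, fun hj => ?_⟩
      · have := h0.1 ((mem_up j).2 hj)
        simp only [LinearMap.comp_apply, Submodule.subtype_apply, e1]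
        exact this
      · have := h0.2 fun h => hj ((mem_up j).1 h)
        simp only [LinearMap.comp_apply, Submodule.subtype_apply, e1]
        exact this)
    (by
      refine ⟨fun S hS => ?_, fun S T hS hST => ?_⟩
      · have e1 : ((π (p (up i S)) : LinearMap.ker (b i)) : W) = p (up i S) := by
          rw [hπ' _ (hp0 S hS)]
        simp only [LinearMap.comp_apply, Submodule.subtype_apply, e1]
        exact hStr.1 _ (by rw [card_up, hS])
      · obtain ⟨x, hx, y, hy, hT⟩ := hST
        have hTc : T.card = k := by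
          rw [hT, Finset.card_insert_of_notMem (fun h => hy (Finset.mem_of_mem_erase h)),
            Finset.card_erase_of_mem hx, hS]
          have : 0 < S.card := Finset.card_pos.2 ⟨x, hx⟩
          omega
        have hN : Nb (up i S) (up i T) := by
          refine ⟨x.1, (mem_up x).2 hx, y.1, fun h => hy ((mem_up y).1 h), ?_⟩
          refine up_ext ?_ fun j => ?_
          · exact Finset.mem_insert_of_mem (Finset.mem_erase.2 ⟨fun h => x.2 h.symm, self_mem_up⟩)
          · rw [hT, Finset.mem_insert, Finset.mem_erase, Finset.mem_insert, Finset.mem_erase, mem_up,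
              Ne, Ne, Subtype.ext_iff, Subtype.ext_iff]
        have e1 : ((π (p (up i S)) : LinearMap.ker (b i)) : W) = p (up i S) := by
          rw [hπ' _ (hp0 S hS)]
        have e2 : ((π (p (up i T)) : LinearMap.ker (b i)) : W) = p (up i T) := by
          rw [hπ' _ (hp0 T hTc)]
        simp only [LinearMap.comp_apply, Submodule.subtype_apply, e1, e2]
        exact hStr.2 _ _ (by rw [card_up, hS]) hN)
  refine ⟨A.compl₁₂ π π, fun x => by rw [LinearMap.compl₁₂_apply]; exact hA1 _, ?_⟩
  intro S hS hiS y hy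
  have hup : up i (univ.filter fun j : {j : ι // j ≠ i} => j.1 ∈ S) = S :=
    up_ext hiS fun j => by rw [Finset.mem_filter]; exact ⟨fun h => h.2, fun h => ⟨Finset.mem_univ _, h⟩⟩
  have hc : (univ.filter fun j : {j : ι // j ≠ i} => j.1 ∈ S).card = k := by
    have := card_up (i := i) (S := univ.filter fun j : {j : ι // j ≠ i} => j.1 ∈ S)
    rw [hup, hS] at this
    omega
  have h3 := LinearMap.congr_fun (hA2 _ hc) ⟨y, hy⟩
  simp only [hup] at h3
  rw [LinearMap.compl₁₂_apply, hπ' y hy]
  exact h3

end Pool.Agent.CB
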