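import Pool.Agent.CB.Stm3

/-!
# Project CB, part 2, piece GLU: gluing alternating forms
-/

set_option autoImplicit false

namespace Pool.Agent.CB

open Finset Module

namespace GluX

/-- the projection -/
def pr {W : Type} [AddCommGroup W] [Module ℚ W] (f : W →ₗ[ℚ] ℚ) (e : W) : W →ₗ[ℚ] W :=
  LinearMap.id - f.smulRight e

theorem pr_apply {W : Type} [AddCommGroup W] [Module ℚ W] (f : W →ₗ[ℚ] ℚ) (e x : W) :
    pr f e x = x - f x • e := rfl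

theorem pr_fix {W : Type} [AddCommGroup W] [Module ℚ W] (f : W →ₗ[ℚ] ℚ) (e : W) {x : W}
    (h : f x = 0) : pr f e x = x := by
  rw [pr_apply, h, zero_smul, sub_zero]

end GluX

open GluX in
theorem t_GLU : R_GLU := by
  intro W _ _ f e A hfe hA hag
  obtain ⟨π, hπ⟩ : ∃ π : Fin 3 → W →ₗ[ℚ] W, π = fun i => pr (f i) (e i) := ⟨_, rfl⟩
  have hπx : ∀ i x, π i x = x - f i x • e i := by intro i x; rw [hπ]; rfl
  have fix : ∀ i x, f i x = 0 → π i x = x := by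
    intro i x h; rw [hπ]; exact pr_fix _ _ h
  have f1 : ∀ i x, f i (π i x) = 0 := by
    intro i x
    rw [hπx, map_sub, map_smul, hfe, if_pos rfl, smul_eq_mul, mul_one, sub_self]
  have f2 : ∀ i j x, i ≠ j → f i (π j x) = f i x := by
    intro i j x h
    rw [hπx, map_sub, map_smul, hfe, if_neg h, smul_zero, sub_zero]
  have cm : ∀ i j x, π i (π j x) = π j (π i x) := by
    intro i j x
    by_cases h : i = j
    · rw [h]
    · rw [hπx i (π j x), hπx j (π i x), f2 i j x h, f2 j i x (Ne.symm h), hπx i x, hπx j x]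
      abel
  obtain ⟨B, hB⟩ : ∃ B : W →ₗ[ℚ] W →ₗ[ℚ] ℚ, B =
      (A 0).compl₁₂ (π 0) (π 0) + (A 1).compl₁₂ (π 1) (π 1) + (A 2).compl₁₂ (π 2) (π 2) -
      (A 0).compl₁₂ (π 0 ∘ₗ π 1) (π 0 ∘ₗ π 1) - (A 0).compl₁₂ (π 0 ∘ₗ π 2) (π 0 ∘ₗ π 2) -
      (A 1).compl₁₂ (π 1 ∘ₗ π 2) (π 1 ∘ₗ π 2) +
      (A 0).compl₁₂ (π 0 ∘ₗ π 1 ∘ₗ π 2) (π 0 ∘ₗ π 1 ∘ₗ π 2) := ⟨_, rfl⟩
  have hBx : ∀ x y, B x y = A 0 (π 0 x) (π 0 y) + A 1 (π 1 x) (π 1 y) + A 2 (π 2 x) (π 2 y) -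
      A 0 (π 0 (π 1 x)) (π 0 (π 1 y)) - A 0 (π 0 (π 2 x)) (π 0 (π 2 y)) -
      A 1 (π 1 (π 2 x)) (π 1 (π 2 y)) + A 0 (π 0 (π 1 (π 2 x))) (π 0 (π 1 (π 2 y))) := by
    intro x y
    rw [hB]
    rfl
  have n01 : (0 : Fin 3) ≠ 1 := by decide
  have n02 : (0 : Fin 3) ≠ 2 := by decide
  have n12 : (1 : Fin 3) ≠ 2 := by decide
  refine ⟨B, fun x => ?_, ?_⟩
  · rw [hBx]
    simp only [hA]
    norm_num
  · have c0 : ∀ x y, f 0 x = 0 → f 0 y = 0 → B x y = A 0 x y := by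
      intro x y hx hy
      have a1 : A 1 (π 1 x) (π 1 y) = A 0 (π 1 x) (π 1 y) :=
        hag 1 0 _ _ (f1 1 x) (f1 1 y) (by rw [f2 0 1 x n01, hx]) (by rw [f2 0 1 y n01, hy])
      have a2 : A 2 (π 2 x) (π 2 y) = A 0 (π 2 x) (π 2 y) :=
        hag 2 0 _ _ (f1 2 x) (f1 2 y) (by rw [f2 0 2 x n02, hx]) (by rw [f2 0 2 y n02, hy])
      have a12 : A 1 (π 1 (π 2 x)) (π 1 (π 2 y)) = A 0 (π 1 (π 2 x)) (π 1 (π 2 y)) :=
        hag 1 0 _ _ (f1 1 _) (f1 1 _) (by rw [f2 0 1 _ n01, f2 0 2 x n02, hx])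
          (by rw [f2 0 1 _ n01, f2 0 2 y n02, hy])
      have p1 : ∀ z, f 0 z = 0 → π 0 (π 1 z) = π 1 z := by
        intro z hz; rw [cm 0 1 z, fix 0 z hz]
      have p2 : ∀ z, f 0 z = 0 → π 0 (π 2 z) = π 2 z := by
        intro z hz; rw [cm 0 2 z, fix 0 z hz]
      have p12 : ∀ z, f 0 z = 0 → π 0 (π 1 (π 2 z)) = π 1 (π 2 z) := by
        intro z hz; rw [cm 0 1 (π 2 z), p2 z hz]
      rw [hBx, fix 0 x hx, fix 0 y hy, p1 x hx, p1 y hy, p2 x hx, p2 y hy, p12 x hx, p12 y hy,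
        a1, a2, a12]
      ring
    have c1 : ∀ x y, f 1 x = 0 → f 1 y = 0 → B x y = A 1 x y := by
      intro x y hx hy
      have a2 : A 2 (π 2 x) (π 2 y) = A 1 (π 2 x) (π 2 y) :=
        hag 2 1 _ _ (f1 2 x) (f1 2 y) (by rw [f2 1 2 x n12, hx]) (by rw [f2 1 2 y n12, hy])
      have p12 : ∀ z, f 1 z = 0 → π 1 (π 2 z) = π 2 z := by
        intro z hz; rw [cm 1 2 z, fix 1 z hz]
      rw [hBx, fix 1 x hx, fix 1 y hy, p12 x hx, p12 y hy, a2]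
      ring
    have c2 : ∀ x y, f 2 x = 0 → f 2 y = 0 → B x y = A 2 x y := by
      intro x y hx hy
      rw [hBx, fix 2 x hx, fix 2 y hy]
      ring
    intro i
    fin_cases i
    · exact c0
    · exact c1
    · exact c2

end Pool.Agent.CB
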