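import Pool.Agent.CB.Stm3

/-!
# Project CB, piece IND: any `m - 1` of the `m` facet functionals at a vertex are independent
-/

set_option autoImplicit false

namespace Pool.Agent.CB

open Finset Module

theorem t_IND : R_IND := by
  intro ι W _ _ _ _ k p a b hSg hk hk' S J hS hJ
  classical
  obtain ⟨φ, hφ⟩ : ∃ φ : ι → W →ₗ[ℚ] ℚ, φ = fun i => ph a b i (decide (i ∈ S)) := ⟨_, rfl⟩
  have hφS : ∀ i ∈ S, φ i = b i := by
    intro i hi
    rw [hφ]
    simp [ph, hi]
  have hφN : ∀ i, i ∉ S → φ i = a i := by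
    intro i hi
    rw [hφ]
    simp [ph, hi]
  -- the pair equation
  have pair : ∀ x ∈ S, ∀ y, y ∉ S → ∀ c : ι → ℚ, (∀ w, ∑ i, c i * φ i w = 0) →
      (c x = 0 ↔ c y = 0) := by
    intro x hx y hy c hc
    obtain ⟨T, hT⟩ : ∃ T, T = insert y (S.erase x) := ⟨_, rfl⟩
    have hxy : x ≠ y := by
      rintro rfl
      exact hy hx
    have hyT : y ∉ S.erase x := fun h => hy (Finset.mem_of_mem_erase h)
    have hTk : T.card = k := by
      rw [hT, Finset.card_insert_of_notMem hyT, Finset.card_erase_of_mem hx, hS]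
      omega
    have hxT : x ∉ T := by
      rw [hT]
      simp [hxy]
    have hyT' : y ∈ T := by
      rw [hT]
      exact Finset.mem_insert_self _ _
    have h1 := hc (p T)
    have h2 : ∑ i, c i * φ i (p T) = c x * φ x (p T) + c y * φ y (p T) := by
      rw [← Finset.sum_pair (f := fun i => c i * φ i (p T)) hxy]
      symm
      apply Finset.sum_subset (Finset.subset_univ _)
      intro i _ hi
      have hix : i ≠ x := fun h => hi (by simp [h])
      have hiy : i ≠ y := fun h => hi (by simp [h])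
      have : φ i (p T) = 0 := by
        by_cases hiS : i ∈ S
        · rw [hφS i hiS]
          refine ((hSg T hTk i).1 ?_).2
          rw [hT]
          exact Finset.mem_insert_of_mem (Finset.mem_erase.2 ⟨hix, hiS⟩)
        · rw [hφN i hiS]
          refine ((hSg T hTk i).2 ?_).1
          rw [hT]
          simp [hiy, hiS]
      rw [this, mul_zero]
    rw [h2] at h1
    have h3 : 0 < φ x (p T) := by
      rw [hφS x hx]
      exact ((hSg T hTk x).2 hxT).2
    have h4 : 0 < φ y (p T) := by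
      rw [hφN y hy]
      exact ((hSg T hTk y).1 hyT').1
    constructor
    · intro h
      rw [h, zero_mul, zero_add] at h1
      rcases mul_eq_zero.1 h1 with h | h
      · exact h
      · exact absurd h h4.ne'
    · intro h
      rw [h, zero_mul, add_zero] at h1
      rcases mul_eq_zero.1 h1 with h | h
      · exact h
      · exact absurd h h3.ne'
  obtain ⟨x₀, hx₀⟩ : ∃ x, x ∈ S := by
    have : 0 < S.card := by omega
    exact Finset.card_pos.1 this
  obtain ⟨y₀, hy₀⟩ : ∃ y, y ∉ S := by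
    by_contra hcon
    push Not at hcon
    have : S = univ := Finset.eq_univ_of_forall hcon
    rw [this, Finset.card_univ] at hS
    omega
  have key : ∀ c : ι → ℚ, (∀ w, ∑ i, c i * φ i w = 0) → (∃ z, c z = 0) → ∀ i, c i = 0 := by
    intro c hc ⟨z, hz⟩
    have hx0 : c x₀ = 0 := by
      by_cases hzS : z ∈ S
      · exact (pair x₀ hx₀ y₀ hy₀ c hc).2 ((pair z hzS y₀ hy₀ c hc).1 hz)
      · exact (pair x₀ hx₀ z hzS c hc).2 hz
    have hy0 : c y₀ = 0 := (pair x₀ hx₀ y₀ hy₀ c hc).1 hx0
    intro i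
    by_cases hiS : i ∈ S
    · exact (pair i hiS y₀ hy₀ c hc).2 hy0
    · exact (pair x₀ hx₀ i hiS c hc).1 hx0
  obtain ⟨z, hz⟩ : ∃ z, z ∉ J := by
    by_contra hcon
    push Not at hcon
    exact hJ (Finset.eq_univ_of_forall hcon)
  obtain ⟨Φ, hΦ⟩ : ∃ Φ : W →ₗ[ℚ] (J → ℚ), ∀ w j, Φ w j = φ j.1 w :=
    ⟨LinearMap.pi fun j : J => φ j.1, fun w j => rfl⟩
  have hsurj : LinearMap.range Φ = ⊤ := by
    by_contra hcon
    obtain ⟨f, hf0, hf⟩ := Submodule.exists_le_ker_of_lt_top _ (lt_top_iff_ne_top.2 hcon)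
    have hfw : ∀ w, f (Φ w) = 0 := fun w => hf ⟨w, rfl⟩
    obtain ⟨c, hc⟩ : ∃ c : ι → ℚ, c = fun i => if h : i ∈ J then
        f (fun j => if (⟨i, h⟩ : J) = j then 1 else 0) else 0 := ⟨_, rfl⟩
    have hcJ : ∀ j : J, c j.1 = f (fun j' => if j = j' then 1 else 0) := by
      intro j
      rw [hc]
      simp only [j.2, dif_pos]
    have h0 : ∀ i, c i = 0 := by
      refine key c (fun w => ?_) ⟨z, ?_⟩
      · rw [← hfw w, LinearMap.pi_apply_eq_sum_univ f (Φ w)]
        rw [← Finset.sum_subset (Finset.subset_univ J)]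
        · rw [← Finset.sum_coe_sort J]
          apply Finset.sum_congr rfl
          intro j _
          rw [hcJ j, hΦ, smul_eq_mul, mul_comm]
        · intro i _ hi
          rw [hc]
          simp [hi]
      · rw [hc]
        simp [hz]
    apply hf0
    refine LinearMap.ext fun v => ?_
    rw [LinearMap.pi_apply_eq_sum_univ f v, LinearMap.zero_apply]
    apply Finset.sum_eq_zero
    intro j _
    rw [← hcJ j, h0, smul_zero]
  have hs := LinearMap.range_eq_top.1 hsurj
  choose w hw using fun j : J => hs (fun j' => if j' = j then 1 else 0)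
  refine ⟨fun i => if h : i ∈ J then w ⟨i, h⟩ else 0, ?_⟩
  intro i hi j hj
  have h1 := congrFun (hw ⟨j, hj⟩) ⟨i, hi⟩
  rw [hΦ, hφ] at h1
  simp only [hj, dif_pos]
  rw [h1]
  simp [Subtype.ext_iff]

end Pool.Agent.CB
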