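import Pool.Agent.CB.Stm3

/-!
# Project CB, piece OCB: the octahedron, by counting (helper82)
-/

set_option autoImplicit false

namespace Pool.Agent.CB

open Finset Module

namespace OCBx

/-- the 2-subsets -/
def sq : Fin 6 → Finset (Fin 4) := ![{0, 1}, {0, 2}, {0, 3}, {1, 2}, {1, 3}, {2, 3}]

def idx (S : Finset (Fin 4)) : Fin 6 :=
  if S = sq 1 then 1 else if S = sq 2 then 2 else if S = sq 3 then 3 else if S = sq 4 then 4 else
    if S = sq 5 then 5 else 0

theorem idx_sq : ∀ i, idx (sq i) = i := by decide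

theorem sq_card : ∀ i, (sq i).card = 2 := by decide

theorem sq_surj : ∀ S : Finset (Fin 4), S.card = 2 → ∃ i, S = sq i := by decide

theorem nb : ∀ i j : Fin 6, i ≠ j → i.val + j.val ≠ 5 → Nb (sq i) (sq j) := by
  unfold Nb
  decide

theorem msum : ∀ i : Fin 6, ((sq i ×ˢ (sq i)ᶜ).val.map
    (fun z : Fin 4 × Fin 4 => insert z.2 ((sq i).erase z.1))) =
    ((univ.filter fun j : Fin 6 => j ≠ i ∧ i.val + j.val ≠ 5).val.map sq) := by decide

theorem fsum {W : Type} [AddCommMonoid W] (F : Finset (Fin 4) → W) (i : Fin 6) :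
    ∑ x ∈ sq i, ∑ y ∈ (sq i)ᶜ, F (insert y ((sq i).erase x)) =
      ∑ j ∈ univ.filter (fun j : Fin 6 => j ≠ i ∧ i.val + j.val ≠ 5), F (sq j) := by
  have h0 := Finset.sum_product' (sq i) (sq i)ᶜ (fun x y => F (insert y ((sq i).erase x)))
  rw [← h0]
  have h := congrArg (fun m => (Multiset.map F m).sum) (msum i)
  simp only [Multiset.map_map] at h
  exact h

abbrev E : Type := {e : Fin 6 × Fin 6 // e.1 ≤ e.2 ∧ e.1.val + e.2.val ≠ 5}

theorem card_E : Fintype.card E = 18 := by decide

def c (e : E) (i j : Fin 6) : ℚ :=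
  if (e.1.1 = i ∧ e.1.2 = j) ∨ (e.1.1 = j ∧ e.1.2 = i) then 1 else 0

theorem c_symm (e : E) (i j : Fin 6) : c e i j = c e j i := by
  unfold c
  split_ifs with h1 h2 h2
  · rfl
  · exact absurd h1.symm h2
  · exact absurd h2.symm h1
  · rfl

theorem c_ne {e : E} {i j : Fin 6} (h : c e i j ≠ 0) : i.val + j.val ≠ 5 := by
  unfold c at h
  split_ifs at h with h1
  · rcases h1 with ⟨h2, h3⟩ | ⟨h2, h3⟩
    · rw [← h2, ← h3]
      exact e.2.2
    · rw [← h2, ← h3, add_comm]
      exact e.2.2
  · exact absurd rfl h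

theorem c_self (e e' : E) : c e' e.1.1 e.1.2 = if e' = e then 1 else 0 := by
  unfold c
  by_cases h : e' = e
  · subst h
    rw [if_pos (Or.inl ⟨rfl, rfl⟩), if_pos rfl]
  · rw [if_neg h, if_neg]
    rintro (⟨h1, h2⟩ | ⟨h1, h2⟩)
    · exact h (Subtype.ext (Prod.ext h1 h2))
    · have h3 := e.2.1
      have h4 := e'.2.1
      rw [h1, h2] at h4
      have h5 : e.1.1 = e.1.2 := le_antisymm h3 h4
      exact h (Subtype.ext (Prod.ext (h1.trans h5.symm) (h2.trans h5)))

section

variable {W : Type} [AddCommGroup W] [Module ℚ W]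

/-- the functional of a tuple of functionals -/
noncomputable def phi (U : Fin 6 → W →ₗ[ℚ] ℚ) : (Fin 6 → W) →ₗ[ℚ] ℚ := ∑ i, (U i).comp (LinearMap.proj i)

theorem phi_apply (U : Fin 6 → W →ₗ[ℚ] ℚ) (y : Fin 6 → W) : phi U y = ∑ i, U i (y i) := by
  unfold phi
  rw [LinearMap.sum_apply]
  rfl

theorem phi_single (U : Fin 6 → W →ₗ[ℚ] ℚ) (i : Fin 6) (y : W) : phi U (Pi.single i y) = U i y := by
  rw [phi_apply, Finset.sum_eq_single i]
  · rw [Pi.single_eq_same]
  · intro j _ hj
    rw [Pi.single_eq_of_ne hj, map_zero]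
  · intro h
    exact absurd (mem_univ i) h

/-- the vectors of the edges and vertices -/
def v (P : Fin 6 → W) (e : E) : Fin 6 → W := fun i => ∑ j, c e i j • P j

theorem phi_v (P : Fin 6 → W) (U : Fin 6 → W →ₗ[ℚ] ℚ) (h1 : ∀ i, U i (P i) = 0)
    (h2 : ∀ i j, i ≠ j → i.val + j.val ≠ 5 → U i (P j) + U j (P i) = 0) (e : E) : phi U (v P e) = 0 := by
  have h3 : phi U (v P e) = ∑ i, ∑ j, c e i j * U i (P j) := by
    rw [phi_apply]
    refine Finset.sum_congr rfl fun i _ => ?_
    unfold v
    rw [map_sum]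
    refine Finset.sum_congr rfl fun j _ => ?_
    rw [map_smul, smul_eq_mul]
  have h4 : ∑ i, ∑ j, c e i j * U i (P j) = ∑ i, ∑ j, c e i j * U j (P i) := by
    rw [Finset.sum_comm]
    refine Finset.sum_congr rfl fun i _ => Finset.sum_congr rfl fun j _ => ?_
    rw [c_symm]
  have h5 : ∑ i, ∑ j, c e i j * U i (P j) + ∑ i, ∑ j, c e i j * U j (P i) = 0 := by
    rw [← Finset.sum_add_distrib]
    refine Finset.sum_eq_zero fun i _ => ?_
    rw [← Finset.sum_add_distrib]
    refine Finset.sum_eq_zero fun j _ => ?_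
    rw [← mul_add]
    by_cases hc : c e i j = 0
    · rw [hc, zero_mul]
    · by_cases hij : i = j
      · subst hij
        rw [h1, add_zero, mul_zero]
      · rw [h2 i j hij (c_ne hc), mul_zero]
  rw [← h4] at h5
  rw [h3]
  linarith

theorem claimA (hO : R_OCA) (p : Finset (Fin 4) → W) (a b : Fin 4 → W →ₗ[ℚ] ℚ) (hs : Sg 2 p a b)
    (w : Fin 6 → Fin 6 → ℚ) (hsym : ∀ i j, w i j = w j i) (hw0 : ∀ i j, i.val + j.val = 5 → w i j = 0)
    (hw : ∀ i, ∑ j, w i j • p (sq j) = 0) : ∀ i j, w i j = 0 := by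
  have h1 : ∀ i j, i ≠ j → i.val + j.val ≠ 5 → w i j = 0 := by
    intro i j hij hs5
    have key := hO (Fin 4) W p a b (Fintype.card_fin 4) hs (fun S T => w (idx S) (idx T))
      (fun S T => hsym _ _) (by
        intro S hS
        obtain ⟨i, rfl⟩ := sq_surj S hS
        refine ⟨- w i i, ?_⟩
        have h := fsum (fun T => w (idx (sq i)) (idx T) • p T) i
        refine h.trans ?_
        simp only [idx_sq]
        have h2 := hw i
        rw [← Finset.sum_filter_add_sum_filter_not univ (fun j : Fin 6 => j ≠ i ∧ i.val + j.val ≠ 5)] at h2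
        have h3 : ∑ j ∈ univ.filter (fun j : Fin 6 => ¬ (j ≠ i ∧ i.val + j.val ≠ 5)), w i j • p (sq j) =
            w i i • p (sq i) := by
          refine Finset.sum_eq_single_of_mem i (mem_filter.2 ⟨mem_univ i, fun h => h.1 rfl⟩) ?_
          intro j hj hji
          have h4 : i.val + j.val = 5 := by
            by_contra h5
            exact (mem_filter.1 hj).2 ⟨hji, h5⟩
          rw [hw0 i j h4, zero_smul]
        rw [h3] at h2
        rw [neg_smul]
        exact eq_neg_of_add_eq_zero_left h2) (sq i) (sq j) (sq_card i) (nb i j hij hs5)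
    simpa only [idx_sq] using key
  have h2 : ∀ i, w i i = 0 := by
    intro i
    have h3 := hw i
    rw [Finset.sum_eq_single i] at h3
    · rcases smul_eq_zero.1 h3 with h4 | h4
      · exact h4
      · exfalso
        obtain ⟨x, hx⟩ := Finset.card_pos.1 (by rw [sq_card i]; norm_num : 0 < (sq i).card)
        have h5 := ((hs (sq i) (sq_card i) x).1 hx).1
        rw [h4, map_zero] at h5
        exact lt_irrefl _ h5
    · intro j _ hji
      by_cases h5 : i.val + j.val = 5
      · rw [hw0 i j h5, zero_smul]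
      · rw [h1 i j (Ne.symm hji) h5, zero_smul]
    · intro h
      exact absurd (mem_univ i) h
  intro i j
  by_cases hij : i = j
  · subst hij
    exact h2 i
  · by_cases h5 : i.val + j.val = 5
    · exact hw0 i j h5
    · exact h1 i j hij h5

theorem lin_v (hO : R_OCA) (p : Finset (Fin 4) → W) (a b : Fin 4 → W →ₗ[ℚ] ℚ) (hs : Sg 2 p a b) :
    LinearIndependent ℚ (v fun i => p (sq i)) := by
  rw [Fintype.linearIndependent_iff]
  intro g hg e
  have h1 := claimA hO p a b hs (fun i j => ∑ e, g e * c e i j)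
    (fun i j => Finset.sum_congr rfl fun e _ => by rw [c_symm])
    (fun i j hij => Finset.sum_eq_zero fun e _ => by
      by_cases hc : c e i j = 0
      · rw [hc, mul_zero]
      · exact absurd hij (c_ne hc))
    (fun i => by
      have h2 := congrFun hg i
      rw [Finset.sum_apply] at h2
      refine Eq.trans ?_ h2
      have h3 : ∀ e, (g e • v (fun i => p (sq i)) e) i = ∑ j, (g e * c e i j) • p (sq j) := by
        intro e
        change g e • ∑ j, c e i j • p (sq j) = _
        rw [Finset.smul_sum]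
        exact Finset.sum_congr rfl fun j _ => smul_smul _ _ _
      simp only [h3]
      rw [Finset.sum_comm]
      refine Finset.sum_congr rfl fun j _ => ?_
      rw [Finset.sum_smul]) e.1.1 e.1.2
  simp only [c_self] at h1
  rw [Finset.sum_eq_single e] at h1
  · rwa [if_pos rfl, mul_one] at h1
  · intro e' _ he
    rw [if_neg he, mul_zero]
  · intro h
    exact absurd (mem_univ e) h

theorem main (h1 : R_OCA) (h2 : R_SPF) (h3 : R_ALT) [FiniteDimensional ℚ W] (hW : finrank ℚ W = 4)
    (p : Finset (Fin 4) → W) (a b : Fin 4 → W →ₗ[ℚ] ℚ) (u : Finset (Fin 4) → W →ₗ[ℚ] ℚ)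
    (hs : Sg 2 p a b) (hu : Str 2 p u) :
    ∃ A : W →ₗ[ℚ] W →ₗ[ℚ] ℚ, (∀ x, A x x = 0) ∧ ∀ S : Finset (Fin 4), S.card = 2 → u S = A (p S) := by
  obtain ⟨X, hX, hXd⟩ := h3 W
  rw [hW] at hXd
  let L := (Submodule.span ℚ (Set.range (v fun i => p (sq i)))).dualAnnihilator
  have hL : finrank ℚ L = 6 := by
    have h4 := Subspace.finrank_add_finrank_dualAnnihilator_eq
      (Submodule.span ℚ (Set.range (v fun i => p (sq i))))
    rw [finrank_span_eq_card (lin_v h1 p a b hs), card_E, Module.finrank_pi_fintype] at h4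
    simp only [hW, Finset.sum_const, Finset.card_univ, Fintype.card_fin, smul_eq_mul] at h4
    change 18 + finrank ℚ L = 24 at h4
    omega
  have hmem : ∀ U : Fin 6 → W →ₗ[ℚ] ℚ, (∀ i, U i (p (sq i)) = 0) →
      (∀ i j, i ≠ j → i.val + j.val ≠ 5 → U i (p (sq j)) + U j (p (sq i)) = 0) → phi U ∈ L := by
    intro U hU1 hU2
    rw [Submodule.mem_dualAnnihilator]
    intro y hy
    have h4 : Submodule.span ℚ (Set.range (v fun i => p (sq i))) ≤ LinearMap.ker (phi U) := by
      rw [Submodule.span_le]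
      rintro _ ⟨e, rfl⟩
      exact phi_v _ U hU1 hU2 e
    exact h4 hy
  let Λ : X →ₗ[ℚ] ((Fin 6 → W) →ₗ[ℚ] ℚ) :=
    { toFun := fun A => phi fun i => A.1 (p (sq i))
      map_add' := by
        intro A B
        refine LinearMap.ext fun y => ?_
        rw [LinearMap.add_apply, phi_apply, phi_apply, phi_apply, ← Finset.sum_add_distrib]
        rfl
      map_smul' := by
        intro r A
        refine LinearMap.ext fun y => ?_
        rw [LinearMap.smul_apply, phi_apply, phi_apply, RingHom.id_apply, Finset.smul_sum]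
        rfl }
  have hΛ : ∀ A : X, Λ A = phi fun i => A.1 (p (sq i)) := fun A => rfl
  have hinj : Function.Injective Λ := by
    rw [injective_iff_map_eq_zero]
    intro A hA
    have h4 : ∀ i, A.1 (p (sq i)) = 0 := by
      intro i
      refine LinearMap.ext fun y => ?_
      have h5 := phi_single (fun i => A.1 (p (sq i))) i y
      rw [← hΛ, hA] at h5
      exact h5.symm
    refine Subtype.ext (LinearMap.ext fun y => ?_)
    have h5 := h2 (Fin 4) W 2 p a b (by rw [hW, Fintype.card_fin]) hs ∅ ∅ (disjoint_bot_left)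
      (by rw [Finset.card_empty, Fintype.card_fin]; norm_num) (by rw [Finset.card_empty]; norm_num) y
      (fun i hi => absurd hi (Finset.notMem_empty i)) (fun i hi => absurd hi (Finset.notMem_empty i))
    have h6 : Submodule.span ℚ {x | ∃ S : Finset (Fin 4), S.card = 2 ∧ Disjoint ∅ S ∧ ∅ ⊆ S ∧ x = p S} ≤
        LinearMap.ker A.1 := by
      rw [Submodule.span_le]
      rintro _ ⟨S, hS, -, -, rfl⟩
      obtain ⟨i, rfl⟩ := sq_surj S hS
      exact h4 i
    exact h6 h5
  have hle : LinearMap.range Λ ≤ L := by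
    rintro _ ⟨A, rfl⟩
    rw [hΛ]
    have hA := (hX A.1).1 A.2
    refine hmem _ (fun i => hA _) fun i j _ _ => ?_
    have h4 := hA (p (sq i) + p (sq j))
    simp only [map_add, LinearMap.add_apply] at h4
    have h5 := hA (p (sq i))
    have h6 := hA (p (sq j))
    linarith
  have heq : LinearMap.range Λ = L := by
    refine Submodule.eq_of_le_of_finrank_eq hle ?_
    rw [LinearMap.finrank_range_of_inj hinj, hXd, hL]
    rfl
  have hφ : phi (fun i => u (sq i)) ∈ L := hmem _ (fun i => hu.1 _ (sq_card i))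
    fun i j hij h5 => hu.2 _ _ (sq_card i) (nb i j hij h5)
  rw [← heq] at hφ
  obtain ⟨A, hA⟩ := hφ
  refine ⟨A.1, (hX A.1).1 A.2, fun S hS => ?_⟩
  obtain ⟨i, rfl⟩ := sq_surj S hS
  refine LinearMap.ext fun y => ?_
  have h4 := phi_single (fun i => u (sq i)) i y
  have h5 := phi_single (fun i => A.1 (p (sq i))) i y
  rw [← hΛ, hA, h4] at h5
  exact h5

end

end OCBx

theorem t_OCB (h1 : R_OCA) (h2 : R_SPF) (h3 : R_ALT) : R_OCB := by
  intro ι W _ _ _ _ _ hι hW p a b u hs hu
  let e : ι ≃ Fin 4 := Fintype.equivFinOfCardEq hι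
  have hc : ∀ S : Finset (Fin 4), (S.map e.symm.toEmbedding).card = S.card := fun S => Finset.card_map _
  obtain ⟨A, hA, hAS⟩ := OCBx.main h1 h2 h3 hW (fun S => p (S.map e.symm.toEmbedding))
    (fun i => a (e.symm i)) (fun i => b (e.symm i)) (fun S => u (S.map e.symm.toEmbedding))
    (fun S hS i => by
      have h4 := hs (S.map e.symm.toEmbedding) (by rw [hc, hS]) (e.symm i)
      have h5 : e.symm i ∈ S.map e.symm.toEmbedding ↔ i ∈ S := Finset.mem_map' _
      rw [h5] at h4
      exact h4)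
    ⟨fun S hS => hu.1 _ (by rw [hc, hS]), fun S T hS hST => hu.2 _ _ (by rw [hc, hS]) (by
      obtain ⟨x, hx, y, hy, rfl⟩ := hST
      refine ⟨e.symm x, (Finset.mem_map' _).2 hx, e.symm y, fun h => hy ((Finset.mem_map' _).1 h), ?_⟩
      rw [Finset.map_insert, Finset.map_erase]
      rfl)⟩
  refine ⟨A, hA, fun S hS => ?_⟩
  have h4 := hAS (S.map e.toEmbedding) (by rw [Finset.card_map, hS])
  have h5 : (S.map e.toEmbedding).map e.symm.toEmbedding = S := by
    rw [Finset.map_map]
    ext x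
    simp
  simp only [h5] at h4
  exact h4

end Pool.Agent.CB
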