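import Pool.Agent.CB.Stm3

/-!
# Project CB, piece R-SIA (helper20; port of helper32's R-SIB)
-/

set_option autoImplicit false
namespace Pool.Agent.CB
open Finset Module

theorem t_SIA : R_SIA := by
  intro m hm ι W _ _ _ _ _ hc hf p a b u hS hU
  have hcard : ∀ i : ι, ({i} : Finset ι).card = 1 := fun i => Finset.card_singleton i
  obtain ⟨P, hP⟩ : ∃ P : ι → W, ∀ i, P i = p {i} := ⟨_, fun _ => rfl⟩
  have hb0 : ∀ i j, j ≠ i → a j (P i) = 0 := fun i j h => by
    rw [hP]
    exact ((hS {i} (hcard i) j).2 (by rw [Finset.mem_singleton]; exact h)).1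
  have hb1 : ∀ i, 0 < a i (P i) := fun i => by
    rw [hP]
    exact ((hS {i} (hcard i) i).1 (Finset.mem_singleton_self i)).1
  have hli : LinearIndependent ℚ P := by
    rw [Fintype.linearIndependent_iff]
    intro g hg i
    have h := congrArg (a i) hg
    rw [map_sum, map_zero, Finset.sum_eq_single i] at h
    · rw [map_smul, smul_eq_mul] at h
      rcases mul_eq_zero.1 h with h | h
      · exact h
      · exact absurd h (hb1 i).ne'
    · intro j _ hj
      rw [map_smul, hb0 j i (Ne.symm hj), smul_zero]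
    · intro h
      exact absurd (Finset.mem_univ i) h
  have hne : Nonempty ι := Fintype.card_pos_iff.1 (by omega)
  obtain ⟨B, hB⟩ : ∃ B : Basis ι ℚ W, ∀ i, B i = P i :=
    ⟨basisOfLinearIndependentOfCardEqFinrank hli (by rw [hc, hf]), fun i => by
      rw [coe_basisOfLinearIndependentOfCardEqFinrank]⟩
  obtain ⟨A, hA⟩ : ∃ A : W →ₗ[ℚ] W →ₗ[ℚ] ℚ, ∀ i, A (P i) = u {i} :=
    ⟨B.constr ℚ fun i => u {i}, fun i => by
      rw [← hB i]
      exact B.constr_basis ℚ _ i⟩
  have hsk : A + A.flip = 0 := by
    refine B.ext fun i => B.ext fun j => ?_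
    rw [hB, hB]
    show A (P i) (P j) + A (P j) (P i) = 0
    rw [hA, hA, hP, hP]
    by_cases h : i = j
    · subst h
      rw [hU.1 {i} (hcard i), add_zero]
    · refine hU.2 _ _ (hcard i) ⟨i, Finset.mem_singleton_self i, j, ?_, ?_⟩
      · rw [Finset.mem_singleton]
        exact Ne.symm h
      · ext x
        rw [Finset.mem_insert, Finset.mem_erase, Finset.mem_singleton, Finset.mem_singleton]
        constructor
        · intro hx
          exact Or.inl hx
        · rintro (hx | ⟨hx, hx'⟩)
          · exact hx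
          · exact absurd hx' hx
  refine ⟨A, fun x => ?_, fun S hS' => ?_⟩
  · have h : A x x + A x x = 0 := by
      have h1 := congrArg (fun f : W →ₗ[ℚ] W →ₗ[ℚ] ℚ => f x x) hsk
      exact h1
    linarith
  · obtain ⟨i, hi⟩ : ∃ i, S = {i} := Finset.card_eq_one.1 hS'
    rw [hi, ← hP]
    exact (hA i).symm

end Pool.Agent.CB
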