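import Pool.Agent.CB.Stm3

/-!
# Project CB, piece R-SIB (helper32)
-/

set_option autoImplicit false
namespace Pool.Agent.CB
open Finset Module

theorem t_SIB : R_SIB := by
  intro m ι W _ _ _ _ _ hc hf p a b u hS hU
  have hcard : ∀ i : ι, (univ.erase i : Finset ι).card = m := fun i => by
    rw [Finset.card_erase_of_mem (Finset.mem_univ i), Finset.card_univ, hc]
    rfl
  obtain ⟨P, hP⟩ : ∃ P : ι → W, ∀ i, P i = p (univ.erase i) := ⟨_, fun _ => rfl⟩
  have hb0 : ∀ i j, j ≠ i → b j (P i) = 0 := fun i j h => by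
    rw [hP]
    exact ((hS (univ.erase i) (hcard i) j).1 (Finset.mem_erase.2 ⟨h, Finset.mem_univ _⟩)).2
  have hb1 : ∀ i, 0 < b i (P i) := fun i => by
    rw [hP]
    exact ((hS (univ.erase i) (hcard i) i).2 (Finset.notMem_erase i _)).2
  have hli : LinearIndependent ℚ P := by
    rw [Fintype.linearIndependent_iff]
    intro g hg i
    have h := congrArg (b i) hg
    rw [map_sum, map_zero, Finset.sum_eq_single i] at h
    · rw [map_smul, smul_eq_mul] at h
      rcases mul_eq_zero.1 h with h | h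
      · exact h
      · exact absurd h (hb1 i).ne'
    · intro j _ hj
      rw [map_smul, hb0 j i (Ne.symm hj), smul_zero]
    · intro h
      exact absurd (Finset.mem_univ i) h
  have hne : Nonempty ι := Fintype.card_pos_iff.1 (by omega)
  obtain ⟨B, hB⟩ : ∃ B : Basis ι ℚ W, ∀ i, B i = P i :=
    ⟨basisOfLinearIndependentOfCardEqFinrank hli (by rw [hc, hf]), fun i => by
      rw [coe_basisOfLinearIndependentOfCardEqFinrank]⟩
  obtain ⟨A, hA⟩ : ∃ A : W →ₗ[ℚ] W →ₗ[ℚ] ℚ, ∀ i, A (P i) = u (univ.erase i) :=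
    ⟨B.constr ℚ fun i => u (univ.erase i), fun i => by
      rw [← hB i]
      exact B.constr_basis ℚ _ i⟩
  have hsk : A + A.flip = 0 := by
    refine B.ext fun i => B.ext fun j => ?_
    rw [hB, hB]
    show A (P i) (P j) + A (P j) (P i) = 0
    rw [hA, hA, hP, hP]
    by_cases h : i = j
    · subst h
      rw [hU.1 (univ.erase i) (hcard i), add_zero]
    · refine hU.2 _ _ (hcard i) ⟨j, Finset.mem_erase.2 ⟨Ne.symm h, Finset.mem_univ _⟩, i,
        Finset.notMem_erase i _, ?_⟩
      ext x
      rw [Finset.mem_insert, Finset.mem_erase, Finset.mem_erase, Finset.mem_erase]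
      constructor
      · intro hx
        by_cases hxi : x = i
        · exact Or.inl hxi
        · exact Or.inr ⟨hx.1, hxi, Finset.mem_univ _⟩
      · rintro (rfl | hx)
        · exact ⟨h, Finset.mem_univ _⟩
        · exact ⟨hx.1, Finset.mem_univ _⟩
  refine ⟨A, fun x => ?_, fun S hS' => ?_⟩
  · have h : A x x + A x x = 0 := by
      have h1 := congrArg (fun f : W →ₗ[ℚ] W →ₗ[ℚ] ℚ => f x x) hsk
      exact h1
    linarith
  · obtain ⟨i, hi⟩ : ∃ i, S = univ.erase i := by
      have h1 : Sᶜ.card = 1 := by rw [Finset.card_compl, hc, hS']; omega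
      obtain ⟨i, hi⟩ := Finset.card_eq_one.1 h1
      refine ⟨i, ?_⟩
      ext x
      rw [Finset.mem_erase, ← Finset.notMem_compl, hi, Finset.mem_singleton]
      exact ⟨fun h => ⟨h, Finset.mem_univ _⟩, fun h => h.1⟩
    rw [hi, ← hP]
    exact (hA i).symm

end Pool.Agent.CB
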