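import Pool.Agent.CB.Stm3

/-!
# Project CB, part 2, piece R-SPF: the vectors of a face span the subspace of the face
-/

set_option autoImplicit false

namespace Pool.Agent.CB

open Finset Module

theorem t_SPF (h : R_IND) : R_SPF := by
  intro ι W _ _ _ _ _ k p a b hfin hSg I J hIJ hIk hJk y hIy hJy
  classical
  rw [← Subspace.forall_mem_dualAnnihilator_apply_eq_zero_iff]
  intro f hf
  rw [Submodule.mem_dualAnnihilator] at hf
  have hface : ∀ T : Finset ι, T.card = k → Disjoint I T → J ⊆ T → f (p T) = 0 :=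
    fun T h1 h2 h3 => hf _ (Submodule.subset_span ⟨T, h1, h2, h3, rfl⟩)
  -- the vertex `S`
  obtain ⟨S, hJS, hSI, hSk⟩ : ∃ S : Finset ι, J ⊆ S ∧ S ⊆ Iᶜ ∧ S.card = k := by
    apply Finset.exists_subsuperset_card_eq
    · intro j hj
      rw [Finset.mem_compl]
      exact fun h' => (Finset.disjoint_left.1 hIJ h') hj
    · omega
    · rw [Finset.card_compl]; omega
  have hIS : ∀ i ∈ I, i ∉ S := fun i hi hS => (Finset.mem_compl.1 (hSI hS)) hi
  obtain ⟨x0, hx0⟩ : (S \ J).Nonempty := by
    rw [← Finset.card_pos, Finset.card_sdiff_of_subset hJS]; omega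
  obtain ⟨hx0S, hx0J⟩ := Finset.mem_sdiff.1 hx0
  obtain ⟨z0, hz0⟩ : ((S ∪ I)ᶜ).Nonempty := by
    rw [← Finset.card_pos, Finset.card_compl]
    have := Finset.card_union_le S I
    omega
  rw [Finset.mem_compl, Finset.mem_union, not_or] at hz0
  obtain ⟨hz0S, hz0I⟩ := hz0
  -- the functionals
  obtain ⟨e, he⟩ := h ι W k p a b hSg (by omega) (by omega) S (univ.erase x0) hSk (by
    intro h'
    have := Finset.mem_univ x0
    rw [← h'] at this
    exact (Finset.notMem_erase x0 univ) this)
  set φ : ι → W →ₗ[ℚ] ℚ := fun i => ph a b i (decide (i ∈ S)) with hφ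
  have hφS : ∀ i, i ∈ S → φ i = b i := fun i hi => by simp [hφ, ph, hi]
  have hφN : ∀ i, i ∉ S → φ i = a i := fun i hi => by simp [hφ, ph, hi]
  have he' : ∀ i j, i ≠ x0 → j ≠ x0 → φ i (e j) = if i = j then 1 else 0 := fun i j hi hj =>
    he i (Finset.mem_erase.2 ⟨hi, Finset.mem_univ i⟩) j (Finset.mem_erase.2 ⟨hj, Finset.mem_univ j⟩)
  have hφp : ∀ i, φ i (p S) = 0 := by
    intro i
    by_cases hi : i ∈ S
    · rw [hφS i hi]; exact ((hSg S hSk i).1 hi).2
    · rw [hφN i hi]; exact ((hSg S hSk i).2 hi).1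
  have hpS : p S ≠ 0 := by
    intro h0
    have h1 := ((hSg S hSk x0).1 hx0S).1
    rw [h0, map_zero] at h1
    exact lt_irrefl _ h1
  have hfS : f (p S) = 0 := hface S hSk (Finset.disjoint_left.2 hIS) hJS
  -- the basis
  let v : ι → W := fun j => if j = x0 then p S else e j
  have hv0 : v x0 = p S := if_pos rfl
  have hv1 : ∀ j, j ≠ x0 → v j = e j := fun j hj => if_neg hj
  have hφv : ∀ i j, i ≠ x0 → φ i (v j) = if i = j then 1 else 0 := by
    intro i j hi
    by_cases hj : j = x0
    · subst hj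
      rw [hv0, hφp, if_neg hi]
    · rw [hv1 j hj, he' i j hi hj]
  have hli : LinearIndependent ℚ v := by
    rw [Fintype.linearIndependent_iff]
    intro g hg
    have h1 : ∀ i, i ≠ x0 → g i = 0 := by
      intro i hi
      have h2 := congrArg (φ i) hg
      rw [map_sum, map_zero] at h2
      simp only [map_smul, hφv i _ hi, smul_eq_mul, mul_ite, mul_one, mul_zero] at h2
      rw [Finset.sum_ite_eq univ i g] at h2
      rwa [if_pos (Finset.mem_univ i)] at h2
    intro i
    by_cases hi : i = x0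
    · subst hi
      rw [Finset.sum_eq_single i (fun j _ hj => by rw [h1 j hj, zero_smul])
        (fun h' => absurd (Finset.mem_univ i) h'), hv0] at hg
      exact (smul_eq_zero.1 hg).resolve_right hpS
    · exact h1 i hi
  have : Nonempty ι := ⟨x0⟩
  let B := basisOfLinearIndependentOfCardEqFinrank hli hfin.symm
  have hB : ∀ i, B i = v i := fun i => by
    rw [coe_basisOfLinearIndependentOfCardEqFinrank]
  have hfφ : f = ∑ j ∈ univ.erase x0, f (e j) • φ j := by
    apply B.ext
    intro i
    rw [hB, LinearMap.sum_apply]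
    simp only [LinearMap.smul_apply, smul_eq_mul]
    by_cases hi : i = x0
    · subst hi
      rw [hv0, hfS]
      symm
      exact Finset.sum_eq_zero fun j _ => by rw [hφp, mul_zero]
    · rw [hv1 i hi]
      symm
      rw [Finset.sum_eq_single i]
      · rw [he' i i hi hi, if_pos rfl, mul_one]
      · intro j hj hji
        rw [he' j i (Finset.ne_of_mem_erase hj) hi, if_neg hji, mul_zero]
      · intro h'
        exact absurd (Finset.mem_erase.2 ⟨hi, Finset.mem_univ i⟩) h'
  -- the values at the neighbours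
  have hnb : ∀ x ∈ S, ∀ z, z ∉ S → x ∉ J → z ∉ I →
      f (p (insert z (S.erase x))) = 0 ∧ 0 < φ x (p (insert z (S.erase x))) ∧
      0 < φ z (p (insert z (S.erase x))) ∧
      ∀ i, i ≠ x → i ≠ z → φ i (p (insert z (S.erase x))) = 0 := by
    intro x hx z hz hxJ hzI
    have hxz : x ≠ z := fun h' => hz (h' ▸ hx)
    have hzE : z ∉ S.erase x := fun h' => hz (Finset.mem_of_mem_erase h')
    have hTk : (insert z (S.erase x)).card = k := by
      rw [Finset.card_insert_of_notMem hzE, Finset.card_erase_of_mem hx]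
      have : 0 < S.card := Finset.card_pos.2 ⟨x, hx⟩
      omega
    refine ⟨?_, ?_, ?_, ?_⟩
    · apply hface _ hTk
      · rw [Finset.disjoint_left]
        intro i hi h'
        rcases Finset.mem_insert.1 h' with h1 | h1
        · exact hzI (h1 ▸ hi)
        · exact hIS i hi (Finset.mem_of_mem_erase h1)
      · intro j hj
        exact Finset.mem_insert_of_mem (Finset.mem_erase.2 ⟨fun h' => hxJ (h' ▸ hj), hJS hj⟩)
    · rw [hφS x hx]
      refine ((hSg _ hTk x).2 ?_).2
      intro h'
      rcases Finset.mem_insert.1 h' with h1 | h1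
      · exact hxz h1
      · exact (Finset.notMem_erase x S) h1
    · rw [hφN z hz]
      exact ((hSg _ hTk z).1 (Finset.mem_insert_self _ _)).1
    · intro i hix hiz
      by_cases hi : i ∈ S
      · rw [hφS i hi]
        exact ((hSg _ hTk i).1 (Finset.mem_insert_of_mem (Finset.mem_erase.2 ⟨hix, hi⟩))).2
      · rw [hφN i hi]
        refine ((hSg _ hTk i).2 ?_).1
        intro h'
        rcases Finset.mem_insert.1 h' with h1 | h1
        · exact hiz h1
        · exact hi (Finset.mem_of_mem_erase h1)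
  have hfval : ∀ w, f w = ∑ j ∈ univ.erase x0, f (e j) * φ j w := by
    intro w
    conv_lhs => rw [hfφ]
    rw [LinearMap.sum_apply]
    rfl
  have hcz : ∀ z, z ∉ S → z ∉ I → f (e z) = 0 := by
    intro z hz hzI
    obtain ⟨h1, -, h3, h4⟩ := hnb x0 hx0S z hz hx0J hzI
    have hzx : z ≠ x0 := fun h' => hz (h' ▸ hx0S)
    rw [hfval, Finset.sum_eq_single z] at h1
    · exact (mul_eq_zero.1 h1).resolve_right h3.ne'
    · intro j hj hjz
      rw [h4 j (Finset.ne_of_mem_erase hj) hjz, mul_zero]
    · intro h'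
      exact absurd (Finset.mem_erase.2 ⟨hzx, Finset.mem_univ z⟩) h'
  have hcx : ∀ x ∈ S, x ∉ J → x ≠ x0 → f (e x) = 0 := by
    intro x hx hxJ hx0'
    obtain ⟨h1, h2, -, h4⟩ := hnb x hx z0 hz0S hxJ hz0I
    rw [hfval, Finset.sum_eq_single x] at h1
    · exact (mul_eq_zero.1 h1).resolve_right h2.ne'
    · intro j hj hjx
      by_cases hjz : j = z0
      · rw [hjz, hcz z0 hz0S hz0I, zero_mul]
      · rw [h4 j hjx hjz, mul_zero]
    · intro h'
      exact absurd (Finset.mem_erase.2 ⟨hx0', Finset.mem_univ x⟩) h'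
  rw [hfval]
  refine Finset.sum_eq_zero fun j hj => ?_
  have hj0 := Finset.ne_of_mem_erase hj
  by_cases hjS : j ∈ S
  · by_cases hjJ : j ∈ J
    · rw [hφS j hjS, hJy j hjJ, mul_zero]
    · rw [hcx j hjS hjJ hj0, zero_mul]
  · by_cases hjI : j ∈ I
    · rw [hφN j hjS, hIy j hjI, mul_zero]
    · rw [hcz j hjS hjI, zero_mul]

end Pool.Agent.CB

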