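import Pool.Agent.CB.Stm3

/-!
# Project CB, part 2: R-STP, the induction step
-/

set_option autoImplicit false

namespace Pool.Agent.CB

open Finset Module

theorem stp_three {ι : Type} (F : Finset ι) (h : 3 ≤ F.card) :
    ∃ g : Fin 3 → ι, (∀ l, g l ∈ F) ∧ Function.Injective g := by
  obtain ⟨G, hG, hc⟩ := exists_subset_card_eq h
  exact ⟨fun l => ((G.equivFinOfCardEq hc).symm l : ι), fun l => hG ((G.equivFinOfCardEq hc).symm l).2,
    Subtype.val_injective.comp (Equiv.injective _)⟩

theorem t_STP : R_STP := by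
  intro hIND hGLU hVNT hAGR hATS hFCA hFCB hCON m k hm hk hkm hR hR1
  intro ι W _ _ _ _ _ hι hW p a b u hSg hStr
  have hF : ∀ i : ι, ∃ A : W →ₗ[ℚ] W →ₗ[ℚ] ℚ, (∀ x, A x x = 0) ∧
      ∀ S : Finset ι, S.card = k → i ∉ S → ∀ y, a i y = 0 → u S y = A (p S) y :=
    hFCA m k hR (by omega) ι W hι hW p a b u hSg hStr (by omega)
  obtain ⟨k', rfl⟩ : ∃ k', k = k' + 1 := ⟨k - 1, by omega⟩
  have hT : ∀ i : ι, ∃ A : W →ₗ[ℚ] W →ₗ[ℚ] ℚ, (∀ x, A x x = 0) ∧
      ∀ S : Finset ι, S.card = k' + 1 → i ∈ S → ∀ y, b i y = 0 → u S y = A (p S) y :=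
    hFCB m k' (by simpa using hR1) (by omega) ι W hι hW p a b u hSg hStr (by omega)
  choose A0 hA0 using hF
  choose A1 hA1 using hT
  obtain ⟨A, hAf, hAt⟩ : ∃ A : ι → Bool → W →ₗ[ℚ] W →ₗ[ℚ] ℚ, (∀ i, A i false = A0 i) ∧ (∀ i, A i true = A1 i) :=
    ⟨fun i ε => if ε = true then A1 i else A0 i, fun i => by simp, fun i => by simp⟩
  have hFct : Fct (k' + 1) p a b u A := by
    intro i ε
    cases ε
    · rw [hAf]
      exact ⟨(hA0 i).1, fun S hS hi y hy => (hA0 i).2 S hS (by simpa using hi) y (by simpa [ph] using hy)⟩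
    · rw [hAt]
      exact ⟨(hA1 i).1, fun S hS hi y hy => (hA1 i).2 S hS (by simpa using hi) y (by simpa [ph] using hy)⟩
  have hB := hATS hIND hGLU hVNT hAGR ι W (k' + 1) p a b u A (by omega) hSg hFct hk (by omega) (by omega)
  choose! B hB using hB
  have hNb : ∀ S T : Finset ι, S.card = k' + 1 → Nb S T → B S = B T := by
    rintro S T hS ⟨x, hx, y, hy, rfl⟩
    have hTc : (insert y (S.erase x)).card = k' + 1 := by
      rw [card_insert_of_notMem (fun h => hy (mem_of_mem_erase h)), card_erase_of_mem hx]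
      omega
    have hmem : ∀ i, i ≠ x → i ≠ y → (i ∈ insert y (S.erase x) ↔ i ∈ S) := by
      intro i h1 h2
      simp [mem_insert, mem_erase, h1, h2]
    have hcard : 3 ≤ (univ \ {x, y} : Finset ι).card := by
      have h1 : ({x, y} : Finset ι).card ≤ 2 := card_le_two
      have h2 := le_card_sdiff ({x, y} : Finset ι) (univ : Finset ι)
      rw [card_univ, hι] at h2
      omega
    obtain ⟨g, hg, hgi⟩ := stp_three _ hcard
    have hgx : ∀ l, g l ≠ x := fun l h => by
      have := hg l
      rw [h] at this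
      simp at this
    have hgy : ∀ l, g l ≠ y := fun l h => by
      have := hg l
      rw [h] at this
      simp at this
    have hJ : (univ.image g : Finset ι) ≠ univ := by
      intro h
      have h1 : (univ.image g : Finset ι).card ≤ 3 := by
        simpa using card_image_le (s := (univ : Finset (Fin 3))) (f := g)
      rw [h, card_univ, hι] at h1
      omega
    obtain ⟨e, he⟩ := hIND ι W (k' + 1) p a b hSg (by omega) (by omega) S (univ.image g) hS hJ
    have hz := hVNT W ⊤ (fun l => ph a b (g l) (decide (g l ∈ S))) (fun l => e (g l))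
      (B S - B (insert y (S.erase x)))
      (fun i j => by
        rw [he (g i) (mem_image_of_mem g (mem_univ i)) (g j) (mem_image_of_mem g (mem_univ j))]
        simp only [hgi.eq_iff])
      (fun i => Submodule.mem_top)
      (fun i v _ w _ hv hw => by
        have h1 := (hB S hS).2.2 (g i) v w hv hw
        have hd : decide (g i ∈ insert y (S.erase x)) = decide (g i ∈ S) :=
          decide_eq_decide.2 (hmem (g i) (hgx i) (hgy i))
        have h2 := (hB _ hTc).2.2 (g i) v w (by rw [hd]; exact hv) (by rw [hd]; exact hw)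
        rw [hd] at h2
        simp only [LinearMap.sub_apply]
        rw [h1, h2, sub_self])
    ext v w
    have := hz v Submodule.mem_top w Submodule.mem_top
    simp only [LinearMap.sub_apply] at this
    linarith
  obtain ⟨S₀, -, hS₀⟩ := exists_subset_card_eq (s := (univ : Finset ι)) (n := k' + 1) (by rw [card_univ, hι]; omega)
  refine ⟨B S₀, (hB S₀ hS₀).1, fun S hS => ?_⟩
  rw [hCON ι _ (k' + 1) B hNb S₀ S hS₀ hS]
  exact (hB S hS).2.1

end Pool.Agent.CB
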