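import Pool.Agent.CB.Stm3

/-!
# Project CB, piece R-VNT (helper67)
-/

set_option autoImplicit false

namespace Pool.Agent.CB

open Finset Module

theorem t_VNT : R_VNT := by
  intro W _ _ H f e D hfe heH hD
  have hf : ∀ i j, i ≠ j → f i (e j) = 0 := fun i j hij => by rw [hfe, if_neg hij]
  have hf1 : ∀ i, f i (e i) = 1 := fun i => by rw [hfe, if_pos rfl]
  -- removing a component
  have hrem : ∀ (i : Fin 3) (x : W), x ∈ H → x - f i x • e i ∈ H := fun i x hx =>
    H.sub_mem hx (H.smul_mem _ (heH i))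
  have hrem0 : ∀ (i : Fin 3) (x : W), f i (x - f i x • e i) = 0 := fun i x => by
    rw [map_sub, map_smul, hf1, smul_eq_mul, mul_one, sub_self]
  have h10 : D (e 1) (e 0) = 0 := hD 2 _ (heH 1) _ (heH 0) (hf 2 1 (by decide)) (hf 2 0 (by decide))
  have h01 : D (e 0) (e 1) = 0 := hD 2 _ (heH 0) _ (heH 1) (hf 2 0 (by decide)) (hf 2 1 (by decide))
  -- `x` in the kernel of `f 0`
  have step : ∀ x ∈ H, f 0 x = 0 → ∀ y ∈ H, D x y = 0 := by
    intro x hx hx0 y hy
    have h1 : D x (y - f 0 y • e 0) = 0 := hD 0 x hx _ (hrem 0 y hy) hx0 (hrem0 0 y)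
    have h2 : D (x - f 1 x • e 1) (e 0) = 0 :=
      hD 1 _ (hrem 1 x hx) _ (heH 0) (hrem0 1 x) (hf 1 0 (by decide))
    rw [map_sub, LinearMap.sub_apply, map_smul, LinearMap.smul_apply, h10, smul_zero, sub_zero] at h2
    rw [map_sub, map_smul, h2, smul_zero, sub_zero] at h1
    exact h1
  intro x hx y hy
  have h1 : D (x - f 0 x • e 0) y = 0 := step _ (hrem 0 x hx) (hrem0 0 x) y hy
  have h2 : D (e 0) (y - f 1 y • e 1) = 0 :=
    hD 1 _ (heH 0) _ (hrem 1 y hy) (hf 1 0 (by decide)) (hrem0 1 y)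
  rw [map_sub, map_smul, h01, smul_zero, sub_zero] at h2
  rw [map_sub, LinearMap.sub_apply, map_smul, LinearMap.smul_apply, h2, smul_zero, sub_zero] at h1
  exact h1

end Pool.Agent.CB
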