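import Pool.Agent.CB.Stm3

/-!
# Project CB, piece R-OCA (helper22): no stress on the octahedron
-/

set_option autoImplicit false

namespace Pool.Agent.CB

open Finset Module

namespace OCA

variable {ι W : Type} [Fintype ι] [DecidableEq ι] [AddCommGroup W] [Module ℚ W]

theorem rel (p : Finset ι → W) (a b : ι → W →ₗ[ℚ] ℚ) (hc : Fintype.card ι = 4) (hs : Sg 2 p a b)
    (w : Finset ι → Finset ι → ℚ)
    (h : ∀ S : Finset ι, S.card = 2 → ∃ l : ℚ,
      ∑ x ∈ S, ∑ y ∈ Sᶜ, w S (insert y (S.erase x)) • p (insert y (S.erase x)) = l • p S)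
    (u v z t : ι) (huv : u ≠ v) (huz : u ≠ z) (hut : u ≠ t) (hvz : v ≠ z) (hvt : v ≠ t) (hzt : z ≠ t) :
    w {u, t} {v, t} * b u (p {v, t}) + w {u, t} {z, t} * b u (p {z, t}) = 0 ∧
      0 < b u (p {v, t}) ∧ 0 < b u (p {z, t}) := by
  have c2 : ∀ x y : ι, x ≠ y → ({x, y} : Finset ι).card = 2 := fun x y hxy => Finset.card_pair hxy
  have hS : ({u, t} : Finset ι).card = 2 := c2 u t hut
  have hcomp : ({u, t} : Finset ι)ᶜ = {v, z} := by
    symm
    apply Finset.eq_of_subset_of_card_le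
    · intro i hi
      rw [mem_insert, mem_singleton] at hi
      rw [mem_compl, mem_insert, mem_singleton]
      rcases hi with rfl | rfl
      · push Not
        exact ⟨huv.symm, hvt⟩
      · push Not
        exact ⟨huz.symm, hzt⟩
    · rw [card_compl, hc, hS, c2 v z hvz]
  obtain ⟨l, hl⟩ := h {u, t} hS
  have e1 : ({u, t} : Finset ι).erase u = {t} := by
    rw [erase_insert]
    rw [mem_singleton]
    exact hut
  have e2 : ({u, t} : Finset ι).erase t = {u} := by
    rw [pair_comm, erase_insert]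
    rw [mem_singleton]
    exact hut.symm
  rw [hcomp, sum_pair hut, sum_pair hvz, sum_pair hvz, e1, e2] at hl
  have h1 := congrArg (b u) hl
  have hb0 : b u (p {u, t}) = 0 := ((hs _ hS u).1 (by simp)).2
  have hbv : b u (p {v, u}) = 0 := ((hs _ (c2 v u huv.symm) u).1 (by simp)).2
  have hbz : b u (p {z, u}) = 0 := ((hs _ (c2 z u huz.symm) u).1 (by simp)).2
  rw [map_add, map_add, map_add, map_smul, map_smul, map_smul, map_smul, map_smul, hb0, hbv, hbz] at h1
  simp only [smul_eq_mul, mul_zero, add_zero] at h1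
  refine ⟨h1, ((hs _ (c2 v t hvt) u).2 ?_).2, ((hs _ (c2 z t hzt) u).2 ?_).2⟩
  · rw [mem_insert, mem_singleton]
    push Not
    exact ⟨huv, hut⟩
  · rw [mem_insert, mem_singleton]
    push Not
    exact ⟨huz, hut⟩

theorem zero_of {α β γ c1 c2 c3 c4 c5 c6 : ℚ} (h1 : α * c1 + β * c2 = 0) (h2 : α * c3 + γ * c4 = 0)
    (h3 : β * c5 + γ * c6 = 0) (p1 : 0 < c1) (p2 : 0 < c2) (p3 : 0 < c3) (p4 : 0 < c4) (p5 : 0 < c5)
    (p6 : 0 < c6) : α = 0 := by
  rcases lt_trichotomy α 0 with h | h | h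
  · have hb : 0 < β := by
      by_contra hb
      have i1 := mul_neg_of_neg_of_pos h p1
      have i2 := mul_nonpos_of_nonpos_of_nonneg (not_lt.1 hb) p2.le
      linarith
    have hg : 0 < γ := by
      by_contra hg
      have i1 := mul_neg_of_neg_of_pos h p3
      have i2 := mul_nonpos_of_nonpos_of_nonneg (not_lt.1 hg) p4.le
      linarith
    have i1 := mul_pos hb p5
    have i2 := mul_pos hg p6
    linarith
  · exact h
  · have hb : β < 0 := by
      by_contra hb
      have i1 := mul_pos h p1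
      have i2 := mul_nonneg (not_lt.1 hb) p2.le
      linarith
    have hg : γ < 0 := by
      by_contra hg
      have i1 := mul_pos h p3
      have i2 := mul_nonneg (not_lt.1 hg) p4.le
      linarith
    have i1 := mul_neg_of_neg_of_pos hb p5
    have i2 := mul_neg_of_neg_of_pos hg p6
    linarith

end OCA

theorem t_OCA : R_OCA := by
  intro ι W _ _ _ _ p a b hc hs w hw h S T hS hST
  obtain ⟨x, hx, y, hy, rfl⟩ := hST
  obtain ⟨t, ht⟩ : ∃ t, S.erase x = {t} := by
    rw [← Finset.card_eq_one, Finset.card_erase_of_mem hx, hS]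
  have htS : t ∈ S.erase x := by rw [ht]; exact mem_singleton_self t
  have hxt : x ≠ t := (ne_of_mem_erase htS).symm
  have hSe : S = {x, t} := by rw [← insert_erase hx, ht]
  have hyx : x ≠ y := fun hh => hy (hh ▸ hx)
  have hyt : y ≠ t := fun hh => hy (hh ▸ mem_of_mem_erase htS)
  obtain ⟨z, hz⟩ : ∃ z, z ∉ ({x, y, t} : Finset ι) := by
    by_contra hcon
    push Not at hcon
    have h1 : (univ : Finset ι) ⊆ {x, y, t} := fun i _ => hcon i
    have h2 := card_le_card h1
    rw [card_univ, hc] at h2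
    have h3 := Finset.card_le_three (a := x) (b := y) (c := t)
    omega
  simp only [mem_insert, mem_singleton] at hz
  push Not at hz
  obtain ⟨hzx, hzy, hzt⟩ := hz
  rw [ht, hSe]
  obtain ⟨r1, q1, q2⟩ := OCA.rel p a b hc hs w h x y z t hyx hzx.symm hxt hzy.symm hyt hzt
  obtain ⟨r2, q3, q4⟩ := OCA.rel p a b hc hs w h y x z t hyx.symm hzy.symm hyt hzx.symm hxt hzt
  obtain ⟨r3, q5, q6⟩ := OCA.rel p a b hc hs w h z x y t hzx hzy hzt hyx hxt hyt
  rw [hw {y, t} {x, t}] at r2
  rw [hw {z, t} {x, t}, hw {z, t} {y, t}] at r3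
  exact OCA.zero_of r1 r2 r3 q1 q2 q3 q4 q5 q6

end Pool.Agent.CB
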